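import Pool.Agent.N437.SPC.Stm3

/-!
# SPC/SHRG (project of helper437): shrinking a convex coset progression
-/

set_option autoImplicit false

namespace Pool.Agent.N946.SPC

open Finset Pool.Agent.N437.SPC
open scoped Pointwise

theorem latS_finite {d : ℕ} {B : Set (Fin d → ℝ)} (hB : IsCompact B) : (latS B).Finite := by
  obtain ⟨R, hR⟩ := hB.isBounded.exists_norm_le
  obtain ⟨M, hM⟩ := exists_nat_ge R
  refine (Set.finite_Icc (fun _ : Fin d => -(M : ℤ)) (fun _ => (M : ℤ))).subset ?_
  intro c hc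
  have h1 : ∀ i, |(c i : ℝ)| ≤ M := by
    intro i
    have h2 := hR _ hc
    have h3 := norm_le_pi_norm (fun i => (c i : ℝ)) i
    rw [Real.norm_eq_abs] at h3
    linarith
  rw [Set.mem_Icc]
  constructor
  · intro i
    have := (abs_le.1 (h1 i)).1
    show -(M : ℤ) ≤ c i
    exact_mod_cast this
  · intro i
    have := (abs_le.1 (h1 i)).2
    show c i ≤ (M : ℤ)
    exact_mod_cast this

theorem zero_mem_latS {d : ℕ} {B : Set (Fin d → ℝ)} (hB : SymB B) : (0 : Fin d → ℤ) ∈ latS B := by
  obtain ⟨hc, -, hi, hs⟩ := hB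
  obtain ⟨x, hx⟩ := hi
  have hxB : x ∈ B := interior_subset hx
  have h := hc hxB (hs x hxB) (by norm_num : (0 : ℝ) ≤ 1 / 2) (by norm_num : (0 : ℝ) ≤ 1 / 2)
    (by norm_num)
  show (fun i => (((0 : Fin d → ℤ) i : ℤ) : ℝ)) ∈ B
  convert h using 1
  ext i
  simp

theorem one_le_ncard {d : ℕ} {B : Set (Fin d → ℝ)} (hB : SymB B) : 1 ≤ (latS B).ncard := by
  have h := (Set.ncard_pos (latS_finite hB.2.1)).2 ⟨0, zero_mem_latS hB⟩
  exact h

theorem t_SHRG (h1 : S_SHR) (h2 : S_SUBG) : S_SHRG := by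
  refine ⟨200000, by norm_num, ?_⟩
  intro Γ _ _ d B ψ H n hB hH hn
  obtain ⟨h, hh⟩ : ∃ h, h = Nat.card H := ⟨_, rfl⟩
  obtain ⟨b, hb⟩ : ∃ b, b = (latS B).ncard := ⟨_, rfl⟩
  have hh1 : 1 ≤ h := by
    rw [hh]
    exact Nat.card_pos
  have hb1 : 1 ≤ b := by
    rw [hb]
    exact one_le_ncard hB
  have hpow : (6561 : ℝ) ^ d ≤ 200000 ^ d := pow_le_pow_left₀ (by norm_num) (by norm_num) d
  have hpow0 : (0 : ℝ) < 6561 ^ d := by positivity
  rcases le_or_gt h n with hc | hc
  · -- case 1
    obtain ⟨N, hN⟩ : ∃ N, N = n / h := ⟨_, rfl⟩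
    have hN1 : 1 ≤ N := by
      rw [hN]
      exact (Nat.one_le_div_iff hh1).2 hc
    have hNn : N * h ≤ n := by
      rw [hN]
      exact Nat.div_mul_le_self n h
    have hNn2 : n ≤ 2 * (N * h) := by
      have h3 : n < (N + 1) * h := by
        rw [hN]
        exact Nat.lt_mul_of_div_lt (Nat.lt_succ_self _) hh1
      nlinarith
    obtain ⟨B', hB', hcard, S', hcov, hS'⟩ := h1 d B N hB hN1
    refine ⟨d, B', ψ, H, S'.image ψ, by omega, hB', hH, ?_, ?_, ?_⟩
    · rw [← hh]
      exact (Nat.mul_le_mul_right _ hcard).trans hNn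
    · intro x hx y hy
      obtain ⟨s, hs, z, hz, rfl⟩ := hcov x hx
      exact ⟨ψ s, mem_image_of_mem _ hs, z, hz, y, hy, by rw [map_add]⟩
    · rw [← hb, ← hh]
      have k1 : ((S'.image ψ).card : ℝ) ≤ S'.card := by exact_mod_cast card_image_le
      have k2 : (n : ℝ) ≤ 2 * (N * h) := by exact_mod_cast hNn2
      have k3 : (S'.card : ℝ) * N ≤ 6561 ^ d * max (b : ℝ) N := by
        rw [← hb] at hS'
        exact_mod_cast hS'
      have k4 : max (b : ℝ) N * h ≤ max ((b : ℝ) * h) n := by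
        rw [max_mul_of_nonneg _ _ (Nat.cast_nonneg h)]
        refine max_le_max le_rfl ?_
        exact_mod_cast hNn
      have k5 : (0 : ℝ) ≤ max ((b : ℝ) * h) n := le_max_of_le_right (Nat.cast_nonneg n)
      calc ((S'.image ψ).card : ℝ) * n ≤ S'.card * (2 * (N * h)) := by gcongr
        _ = 2 * ((S'.card * N) * h) := by ring
        _ ≤ 2 * ((6561 ^ d * max (b : ℝ) N) * h) := by gcongr
        _ = 2 * 6561 ^ d * (max (b : ℝ) N * h) := by ring
        _ ≤ 2 * 6561 ^ d * max ((b : ℝ) * h) n := by gcongr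
        _ ≤ 200000 ^ (d + 1) * max ((b : ℝ) * h) n := by
            apply mul_le_mul_of_nonneg_right _ k5
            rw [pow_succ]
            nlinarith
  · -- case 2
    obtain ⟨H', g, J, S1, hH', hvol, hS1, hcov⟩ := h2 H n hH hn (by rw [← hh]; exact hc)
    obtain ⟨B'', hB'', hcard'', S'', hcov'', hS''⟩ := h1 d B b hB hb1
    rw [← hb, max_self] at hS''
    have hS''2 : S''.card ≤ 6561 ^ d := Nat.le_of_mul_le_mul_right hS'' hb1
    have hfin'' := latS_finite hB''.2.1
    have hfin : (latS ((2 : ℝ) • B)).Finite := by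
      refine ((S''.finite_toSet).add hfin'').subset ?_
      intro x hx
      obtain ⟨s, hs, y, hy, rfl⟩ := hcov'' x hx
      exact Set.add_mem_add hs hy
    have hcardL : hfin.toFinset.card ≤ 6561 ^ d * b := by
      have : hfin.toFinset ⊆ S'' + hfin''.toFinset := by
        intro x hx
        obtain ⟨s, hs, y, hy, rfl⟩ := hcov'' x ((Set.Finite.mem_toFinset _).1 hx)
        exact add_mem_add hs ((Set.Finite.mem_toFinset _).2 hy)
      calc hfin.toFinset.card ≤ (S'' + hfin''.toFinset).card := card_le_card this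
        _ ≤ S''.card * hfin''.toFinset.card := card_add_le
        _ ≤ 6561 ^ d * b := by
            refine Nat.mul_le_mul hS''2 ?_
            rw [← Set.ncard_eq_toFinset_card _ hfin'']
            exact hcard''
    obtain ⟨r, hr⟩ : ∃ r : ℝ, r = (J : ℝ) + 1 / 2 := ⟨_, rfl⟩
    have hr0 : 0 < r := by
      rw [hr]
      positivity
    let ψ' : (Fin 1 → ℤ) →+ Γ :=
      { toFun := fun c => c 0 • g
        map_zero' := by simp
        map_add' := fun c c' => by rw [Pi.add_apply, add_smul] }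
    have hlat : ∀ c : Fin 1 → ℤ, c ∈ latS (Metric.closedBall (0 : Fin 1 → ℝ) r) ↔ |c 0| ≤ (J : ℤ) := by
      intro c
      show (fun i => (c i : ℝ)) ∈ Metric.closedBall (0 : Fin 1 → ℝ) r ↔ _
      rw [mem_closedBall_zero_iff, pi_norm_le_iff_of_nonneg hr0.le, Fin.forall_fin_one,
        Real.norm_eq_abs, hr, ← Int.cast_abs]
      constructor
      · intro h3
        have h4 : (|c 0| : ℝ) < (J : ℝ) + 1 := by
          rw [← Int.cast_abs]
          linarith
        have h5 : |c 0| < (J : ℤ) + 1 := by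
          rw [← Int.cast_abs] at h4
          exact_mod_cast h4
        omega
      · intro h3
        have h4 : ((|c 0| : ℤ) : ℝ) ≤ (J : ℝ) := by exact_mod_cast h3
        linarith
    refine ⟨1, Metric.closedBall (0 : Fin 1 → ℝ) r, ψ', H',
      (hfin.toFinset ×ˢ S1).image fun p => ψ p.1 + p.2, by omega, ?_, ?_, ?_, ?_, ?_⟩
    · refine ⟨convex_closedBall _ _, isCompact_closedBall _ _, ?_, ?_⟩
      · exact (Metric.nonempty_ball.2 hr0).mono Metric.ball_subset_interior_closedBall
      · intro x hx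
        rw [mem_closedBall_zero_iff] at hx ⊢
        rwa [norm_neg]
    · exact Finite.Set.subset (H : Set Γ) hH'
    · refine le_trans (Nat.mul_le_mul_right _ ?_) hvol
      have h3 : latS (Metric.closedBall (0 : Fin 1 → ℝ) r) ⊆
          (fun (j : ℤ) (_ : Fin 1) => j) '' (Set.Icc (-(J : ℤ)) J) := by
        intro c hc3
        refine ⟨c 0, abs_le.1 ((hlat c).1 hc3), ?_⟩
        ext i
        rw [Subsingleton.elim i 0]
      refine (Set.ncard_le_ncard h3 ((Set.finite_Icc _ _).image _)).trans ?_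
      refine (Set.ncard_image_le (Set.finite_Icc _ _)).trans ?_
      rw [← Finset.coe_Icc, Set.ncard_coe_finset, Int.card_Icc]
      omega
    · intro x hx y hy
      obtain ⟨s, hs, j, hj, h', hh', rfl⟩ := hcov y hy
      refine ⟨ψ x + s, mem_image.2 ⟨(x, s), mem_product.2 ⟨(Set.Finite.mem_toFinset _).2 hx, hs⟩, rfl⟩,
        fun _ => j, (hlat _).2 hj, h', hh', ?_⟩
      show ψ x + (s + j • g + h') = ψ x + s + j • g + h'
      abel
    · rw [← hb, ← hh]
      have k1 : (((hfin.toFinset ×ˢ S1).image fun p => ψ p.1 + p.2).card : ℝ) ≤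
          (6561 ^ d * b) * S1.card := by
        have : ((hfin.toFinset ×ˢ S1).image fun p => ψ p.1 + p.2).card ≤ (6561 ^ d * b) * S1.card := by
          refine card_image_le.trans ?_
          rw [card_product]
          exact Nat.mul_le_mul_right _ hcardL
        exact_mod_cast this
      have k2 : (S1.card : ℝ) * n ≤ 6 * h := by
        rw [← hh] at hS1
        exact_mod_cast hS1
      have k3 : (b : ℝ) * h ≤ max ((b : ℝ) * h) n := le_max_left _ _
      have k5 : (0 : ℝ) ≤ max ((b : ℝ) * h) n := le_max_of_le_right (Nat.cast_nonneg n)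
      calc (((hfin.toFinset ×ˢ S1).image fun p => ψ p.1 + p.2).card : ℝ) * n
          ≤ ((6561 ^ d * b) * S1.card) * n := by gcongr
        _ = 6561 ^ d * b * (S1.card * n) := by ring
        _ ≤ 6561 ^ d * b * (6 * h) := by gcongr
        _ = 6 * 6561 ^ d * (b * h) := by ring
        _ ≤ 6 * 6561 ^ d * max ((b : ℝ) * h) n := by gcongr
        _ ≤ 200000 ^ (d + 1) * max ((b : ℝ) * h) n := by
            apply mul_le_mul_of_nonneg_right _ k5
            rw [pow_succ]
            nlinarith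

end Pool.Agent.N946.SPC
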